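import Pool.Agent.E8helper70.Mlv.Grd

/-! # Equivalent forms of the large value conjecture -/

set_option autoImplicit false

open Finset

namespace Pool.Agent.E8helper70.Mlv

/-- `n^{it}` -/
noncomputable def nt (t : ℤ) (n : ℕ) : ℂ :=
  Complex.exp ((((t : ℝ) * Real.log (n : ℝ) : ℝ) : ℂ) * Complex.I)

/-- `∑_{N ≤ n ≤ 2N} b_n n^{it}` -/
noncomputable def D (N : ℕ) (b : ℕ → ℂ) (t : ℤ) : ℂ := ∑ n ∈ Icc N (2 * N), b n * nt t n

def LargeValues (Cl : Set (ℕ → ℂ)) : Prop := ∀ A σ : ℝ, 1 / 2 < σ → ∀ ε : ℝ, 0 < ε → ∃ C : ℝ,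
  ∀ N : ℕ, 1 ≤ N → ∀ T : ℝ, (N : ℝ) ≤ T → T ≤ (N : ℝ) ^ A → ∀ b ∈ Cl, ∀ W : Finset ℤ,
    (∀ t ∈ W, 0 ≤ (t : ℝ) ∧ (t : ℝ) ≤ T ∧ (N : ℝ) ^ σ < ‖D N b t‖) →
      (W.card : ℝ) ≤ C * (N : ℝ) ^ (2 - 2 * σ + ε)

/-- `P C N W` holds for all sets `W` of at most `N` integers of `[0, N^A]` -/
def ForAllSets (P : ℝ → ℝ → ℕ → Finset ℤ → Prop) : Prop := ∀ A ε : ℝ, 0 < ε → ∃ C : ℝ,
  ∀ N : ℕ, 1 ≤ N → ∀ W : Finset ℤ, W.card ≤ N → (∀ t ∈ W, 0 ≤ (t : ℝ) ∧ (t : ℝ) ≤ (N : ℝ) ^ A) →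
    P ε C N W

def MeanSquare (ε C : ℝ) (N : ℕ) (W : Finset ℤ) : Prop := ∀ b : ℕ → ℂ, (∀ n, ‖b n‖ ≤ 1) →
  ∑ t ∈ W, ‖D N b t‖ ^ 2 ≤ C * (N : ℝ) ^ (2 + ε)

def Families (ε C : ℝ) (N : ℕ) (W : Finset ℤ) : Prop := ∀ (m : ℕ) (b : Fin m → ℕ → ℂ),
  (∀ n, ∑ j, ‖b j n‖ ^ 2 ≤ 1) → ∑ j, ∑ t ∈ W, ‖D N (b j) t‖ ^ 2 ≤ C * (N : ℝ) ^ (2 + ε)

def Weighted (ε C : ℝ) (N : ℕ) (W : Finset ℤ) : Prop := ∃ w : ℕ → ℝ, (∀ n, 0 < w n) ∧
  ∑ n ∈ Icc N (2 * N), w n ≤ C * (N : ℝ) ^ (1 + ε) ∧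
  ∀ b : ℕ → ℂ, ∑ t ∈ W, ‖D N b t‖ ^ 2 ≤ N * ∑ n ∈ Icc N (2 * N), w n * ‖b n‖ ^ 2

def DualWeighted (ε C : ℝ) (N : ℕ) (W : Finset ℤ) : Prop := ∃ w : ℕ → ℝ, (∀ n, 0 < w n) ∧
  ∑ n ∈ Icc N (2 * N), w n ≤ C * (N : ℝ) ^ (1 + ε) ∧
  ∀ c : ℤ → ℂ, ∑ n ∈ Icc N (2 * N), ‖∑ t ∈ W, c t * nt t n‖ ^ 2 / w n ≤ N * ∑ t ∈ W, ‖c t‖ ^ 2

def MeanModulus (ε C : ℝ) (N : ℕ) (W : Finset ℤ) : Prop := ∀ c : ℤ → ℂ, (∀ t, ‖c t‖ ≤ 1) →
  ∑ n ∈ Icc N (2 * N), ‖∑ t ∈ W, c t * nt t n‖ ≤ C * (N : ℝ) ^ (1 + ε) * √(W.card : ℝ)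

lemma qd_D (N : ℕ) (W : Finset ℤ) (b : ℕ → ℂ) :
    ∑ t ∈ W, ‖D N b t‖ ^ 2 = qd W (Icc N (2 * N)) nt b := rfl

lemma norm_nt (t : ℤ) (n : ℕ) : ‖nt t n‖ = 1 := by
  unfold nt; exact Complex.norm_exp_ofReal_mul_I _

lemma card_Icc' (N : ℕ) : (Icc N (2 * N)).card = N + 1 := by
  rw [Nat.card_Icc]; omega

lemma norm_D_le (N : ℕ) (b : ℕ → ℂ) (hb : ∀ n, ‖b n‖ ≤ 1) (t : ℤ) : ‖D N b t‖ ≤ N + 1 := by
  unfold D
  refine (norm_sum_le _ _).trans ?_
  calc ∑ n ∈ Icc N (2 * N), ‖b n * nt t n‖ ≤ ∑ _n ∈ Icc N (2 * N), (1 : ℝ) := by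
        refine Finset.sum_le_sum fun n _ => ?_
        rw [norm_mul, norm_nt, mul_one]
        exact hb n
    _ = N + 1 := by rw [Finset.sum_const, card_Icc']; simp

/-! ### signs -/

lemma sq_conv {p q x : ℝ} (hx : |x| ≤ 1) :
    ((1 + x) / 2 * p + (1 - x) / 2 * q) ^ 2 ≤ (1 + x) / 2 * p ^ 2 + (1 - x) / 2 * q ^ 2 := by
  obtain ⟨h1, h2⟩ := abs_le.1 hx
  have h3 : (1 + x) / 2 * p ^ 2 + (1 - x) / 2 * q ^ 2 - ((1 + x) / 2 * p + (1 - x) / 2 * q) ^ 2 =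
      (1 + x) * (1 - x) / 4 * (p - q) ^ 2 := by ring
  have h4 : 0 ≤ (1 + x) * (1 - x) / 4 * (p - q) ^ 2 := by
    have : 0 ≤ (1 + x) * (1 - x) := mul_nonneg (by linarith) (by linarith)
    positivity
  linarith

lemma qd_conv {τ : Type*} (W : Finset τ) (S : Finset ℕ) (a : τ → ℕ → ℂ) (u e : ℕ → ℂ) (x : ℝ)
    (hx : |x| ≤ 1) : qd W S a (fun n => u n + x * e n) ≤
      (1 + x) / 2 * qd W S a (fun n => u n + e n) + (1 - x) / 2 * qd W S a (fun n => u n - e n) := by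
  unfold qd
  rw [Finset.mul_sum, Finset.mul_sum, ← Finset.sum_add_distrib]
  refine Finset.sum_le_sum fun t _ => ?_
  obtain ⟨h1, h2⟩ := abs_le.1 hx
  have e1 : ∑ n ∈ S, (u n + x * e n) * a t n = (((1 + x) / 2 : ℝ) : ℂ) * ∑ n ∈ S, (u n + e n) * a t n +
      (((1 - x) / 2 : ℝ) : ℂ) * ∑ n ∈ S, (u n - e n) * a t n := by
    rw [Finset.mul_sum, Finset.mul_sum, ← Finset.sum_add_distrib]
    refine Finset.sum_congr rfl fun n _ => ?_
    push_cast
    ring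
  rw [e1]
  set P := ∑ n ∈ S, (u n + e n) * a t n
  set Q := ∑ n ∈ S, (u n - e n) * a t n
  have h3 : ‖(((1 + x) / 2 : ℝ) : ℂ) * P + (((1 - x) / 2 : ℝ) : ℂ) * Q‖ ≤
      (1 + x) / 2 * ‖P‖ + (1 - x) / 2 * ‖Q‖ := by
    refine (norm_add_le _ _).trans ?_
    rw [norm_mul, norm_mul, Complex.norm_real, Complex.norm_real, Real.norm_of_nonneg (by linarith),
      Real.norm_of_nonneg (by linarith)]
  exact (pow_le_pow_left₀ (norm_nonneg _) h3 2).trans (sq_conv hx)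

lemma round {τ : Type*} (W : Finset τ) (S : Finset ℕ) (a : τ → ℕ → ℂ) (b : ℕ → ℝ)
    (hb : ∀ n, |b n| ≤ 1) : ∃ b' : ℕ → ℝ, (∀ n, b' n = 1 ∨ b' n = -1) ∧
      qd W S a (fun n => (b n : ℂ)) ≤ qd W S a (fun n => (b' n : ℂ)) := by
  have key : ∀ T : Finset ℕ, ∃ b' : ℕ → ℝ, (∀ n ∈ T, b' n = 1 ∨ b' n = -1) ∧
      (∀ n, n ∉ T → b' n = b n) ∧ qd W S a (fun n => (b n : ℂ)) ≤ qd W S a (fun n => (b' n : ℂ)) := by
    intro T
    induction T using Finset.induction_on with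
    | empty => exact ⟨b, by simp, by simp, le_rfl⟩
    | insert j T hj ih =>
      obtain ⟨b', h1, h2, h3⟩ := ih
      obtain ⟨u, hu⟩ : ∃ u : ℕ → ℂ, u = fun n => if n = j then 0 else (b' n : ℂ) := ⟨_, rfl⟩
      obtain ⟨e, he⟩ : ∃ e : ℕ → ℂ, e = fun n => if n = j then 1 else 0 := ⟨_, rfl⟩
      have hx : |b' j| ≤ 1 := by rw [h2 j hj]; exact hb j
      have h4 := qd_conv W S a u e (b' j) hx
      have e1 : (fun n => u n + (b' j : ℂ) * e n) = fun n => (b' n : ℂ) := by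
        funext n
        rw [hu, he]
        by_cases hn : n = j <;> simp [hn]
      have e2 : (fun n => u n + e n) = fun n => ((Function.update b' j 1 n : ℝ) : ℂ) := by
        funext n
        rw [hu, he]
        by_cases hn : n = j <;> simp [hn]
      have e3 : (fun n => u n - e n) = fun n => ((Function.update b' j (-1) n : ℝ) : ℂ) := by
        funext n
        rw [hu, he]
        by_cases hn : n = j <;> simp [hn]
      rw [e1, e2, e3] at h4
      obtain ⟨h5, h6⟩ := abs_le.1 hx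
      rcases le_total (qd W S a fun n => ((Function.update b' j (-1) n : ℝ) : ℂ))
        (qd W S a fun n => ((Function.update b' j 1 n : ℝ) : ℂ)) with h7 | h7
      · refine ⟨Function.update b' j 1, fun n hn => ?_, fun n hn => ?_, ?_⟩
        · rw [Finset.mem_insert] at hn
          rcases eq_or_ne n j with rfl | hne
          · left; simp
          · rw [Function.update_of_ne hne]
            exact h1 n (hn.resolve_left hne)
        · rw [Finset.mem_insert, not_or] at hn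
          rw [Function.update_of_ne hn.1]
          exact h2 n hn.2
        · refine h3.trans (h4.trans ?_)
          nlinarith [mul_le_mul_of_nonneg_left h7 (by linarith : (0 : ℝ) ≤ (1 - b' j) / 2)]
      · refine ⟨Function.update b' j (-1), fun n hn => ?_, fun n hn => ?_, ?_⟩
        · rw [Finset.mem_insert] at hn
          rcases eq_or_ne n j with rfl | hne
          · right; simp
          · rw [Function.update_of_ne hne]
            exact h1 n (hn.resolve_left hne)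
        · rw [Finset.mem_insert, not_or] at hn
          rw [Function.update_of_ne hn.1]
          exact h2 n hn.2
        · refine h3.trans (h4.trans ?_)
          nlinarith [mul_le_mul_of_nonneg_left h7 (by linarith : (0 : ℝ) ≤ (1 + b' j) / 2)]
  obtain ⟨b', h1, h2, h3⟩ := key S
  classical
  refine ⟨fun n => if n ∈ S then b' n else 1, fun n => ?_, h3.trans (le_of_eq ?_)⟩
  · dsimp only
    split_ifs with h
    · exact h1 n h
    · left; rfl
  · refine qd_congr W S a fun n hn => ?_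
    simp [hn]

/-! ### from large values to the mean square -/

lemma two_three (h : LargeValues {b | ∀ n, b n = 1 ∨ b n = -1}) : ForAllSets MeanSquare := by
  intro A ε hε
  obtain ⟨δ, hδ⟩ : ∃ δ : ℝ, δ = ε / 4 := ⟨_, rfl⟩
  have hδ0 : 0 < δ := by rw [hδ]; positivity
  have hC : ∀ j : ℕ, ∃ C : ℝ, 0 ≤ C ∧ ∀ N : ℕ, 1 ≤ N → ∀ T : ℝ, (N : ℝ) ≤ T →
      T ≤ (N : ℝ) ^ (max A 1) → ∀ b : ℕ → ℂ, (∀ n, b n = 1 ∨ b n = -1) → ∀ W : Finset ℤ,
      (∀ t ∈ W, 0 ≤ (t : ℝ) ∧ (t : ℝ) ≤ T ∧ (N : ℝ) ^ (1 / 2 + (j + 1) * δ) < ‖D N b t‖) →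
      (W.card : ℝ) ≤ C * (N : ℝ) ^ (2 - 2 * (1 / 2 + (j + 1) * δ) + δ) := by
    intro j
    obtain ⟨C, hC⟩ := h (max A 1) (1 / 2 + (j + 1) * δ) (by
      have : 0 < ((j : ℝ) + 1) * δ := by positivity
      linarith) δ hδ0
    refine ⟨max C 0, le_max_right _ _, fun N hN T h1 h2 b hb W hW => ?_⟩
    exact (hC N hN T h1 h2 b hb W hW).trans
      (mul_le_mul_of_nonneg_right (le_max_left _ _) (by positivity))
  choose C hC0 hC using hC
  obtain ⟨J, hJ⟩ : ∃ J : ℕ, 2 / δ ≤ J := exists_nat_ge _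
  have hJ2 : 2 ≤ J * δ := by rwa [div_le_iff₀ hδ0] at hJ
  obtain ⟨B, hB⟩ : ∃ B : ℝ, B = 4 + (1 + ∑ j ∈ range J, C j) := ⟨_, rfl⟩
  have hS0 : 0 ≤ ∑ j ∈ range J, C j := Finset.sum_nonneg fun j _ => hC0 j
  -- signs
  have hsign : ∀ N : ℕ, 1 ≤ N → ∀ W : Finset ℤ, W.card ≤ N →
      (∀ t ∈ W, 0 ≤ (t : ℝ) ∧ (t : ℝ) ≤ (N : ℝ) ^ A) → ∀ b : ℕ → ℂ, (∀ n, b n = 1 ∨ b n = -1) →
      ∑ t ∈ W, ‖D N b t‖ ^ 2 ≤ B * (N : ℝ) ^ (2 + ε) := by
    intro N hN W hWN hW b hb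
    have hN1 : (1 : ℝ) ≤ N := by exact_mod_cast hN
    have hN0 : (0 : ℝ) < N := by linarith
    have hbn : ∀ n, ‖b n‖ ≤ 1 := fun n => by rcases hb n with h | h <;> rw [h] <;> simp
    have hWR : (W.card : ℝ) ≤ N := by exact_mod_cast hWN
    rcases Nat.lt_or_ge N 2 with hN2 | hN2
    · have hNe : N = 1 := by omega
      subst hNe
      have h1 : ∑ t ∈ W, ‖D 1 b t‖ ^ 2 ≤ ∑ _t ∈ W, (4 : ℝ) := by
        refine Finset.sum_le_sum fun t _ => ?_
        have := norm_D_le 1 b hbn t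
        have h2 := norm_nonneg (D 1 b t)
        push_cast at this
        nlinarith
      rw [Finset.sum_const, nsmul_eq_mul] at h1
      simp only [Nat.cast_one, Real.one_rpow, mul_one] at h1 hWR ⊢
      rw [hB]
      nlinarith
    · have hN2R : (2 : ℝ) ≤ N := by exact_mod_cast hN2
      -- pointwise
      have hpt : ∀ t ∈ W, ‖D N b t‖ ^ 2 ≤ (N : ℝ) ^ (1 + 2 * δ) + ∑ j ∈ range J,
          (if (N : ℝ) ^ (1 / 2 + (j + 1) * δ) < ‖D N b t‖ then
            (N : ℝ) ^ (2 * (1 / 2 + (j + 2) * δ)) else 0) := by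
        intro t _
        have hsq : ∀ x : ℝ, ((N : ℝ) ^ x) ^ 2 = (N : ℝ) ^ (2 * x) := fun x => by
          rw [← Real.rpow_natCast, ← Real.rpow_mul hN0.le]
          congr 1; push_cast; ring
        have hpos : ∀ j ∈ range J, (0 : ℝ) ≤ (if (N : ℝ) ^ (1 / 2 + (j + 1) * δ) < ‖D N b t‖ then
            (N : ℝ) ^ (2 * (1 / 2 + (j + 2) * δ)) else 0) := by
          intro j _
          split_ifs
          · positivity
          · exact le_rfl
        by_cases h0 : ‖D N b t‖ ≤ (N : ℝ) ^ (1 / 2 + δ)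
        · have h1 := pow_le_pow_left₀ (norm_nonneg _) h0 2
          rw [hsq] at h1
          have h2 : 2 * (1 / 2 + δ) = 1 + 2 * δ := by ring
          rw [h2] at h1
          have := Finset.sum_nonneg hpos
          linarith
        · push Not at h0
          -- the last level
          have hex : ∃ j : ℕ, ‖D N b t‖ ≤ (N : ℝ) ^ (1 / 2 + (j + 2) * δ) := by
            refine ⟨J, ?_⟩
            have h1 := norm_D_le N b hbn t
            have h2 : (N : ℝ) ^ (2 : ℝ) ≤ (N : ℝ) ^ (1 / 2 + ((J : ℝ) + 2) * δ) := by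
              apply Real.rpow_le_rpow_of_exponent_le hN1
              nlinarith
            rw [Real.rpow_two] at h2
            nlinarith
          have hfind := Nat.find_spec hex
          obtain ⟨j, hj⟩ : ∃ j : ℕ, j = Nat.find hex := ⟨_, rfl⟩
          rw [← hj] at hfind
          have hlow : (N : ℝ) ^ (1 / 2 + ((j : ℝ) + 1) * δ) < ‖D N b t‖ := by
            rcases Nat.eq_zero_or_pos j with h1 | h1
            · rw [h1]
              simpa using h0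
            · have h2 := Nat.find_min hex (m := j - 1) (by omega)
              push Not at h2
              have h3 : ((j - 1 : ℕ) : ℝ) + 2 = (j : ℝ) + 1 := by
                rw [Nat.cast_sub h1]; push_cast; ring
              rwa [h3] at h2
          have hjJ : j < J := by
            by_contra hge
            push Not at hge
            have hgeR : (J : ℝ) ≤ j := by exact_mod_cast hge
            have h1 := norm_D_le N b hbn t
            have h2 : (N : ℝ) ^ (2 : ℝ) ≤ (N : ℝ) ^ (1 / 2 + ((j : ℝ) + 1) * δ) := by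
              apply Real.rpow_le_rpow_of_exponent_le hN1
              nlinarith
            rw [Real.rpow_two] at h2
            nlinarith
          have h4 := pow_le_pow_left₀ (norm_nonneg _) hfind 2
          rw [hsq] at h4
          have h5 := Finset.single_le_sum hpos (Finset.mem_range.2 hjJ)
          rw [if_pos hlow] at h5
          have h6 : 0 ≤ (N : ℝ) ^ (1 + 2 * δ) := by positivity
          linarith
      have hTN : (N : ℝ) ≤ (N : ℝ) ^ (max A 1) := by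
        calc (N : ℝ) = (N : ℝ) ^ (1 : ℝ) := (Real.rpow_one _).symm
          _ ≤ _ := Real.rpow_le_rpow_of_exponent_le hN1 (le_max_right _ _)
      have hcount : ∀ j ∈ range J, ∑ t ∈ W, (if (N : ℝ) ^ (1 / 2 + (j + 1) * δ) < ‖D N b t‖ then
            (N : ℝ) ^ (2 * (1 / 2 + (j + 2) * δ)) else 0) ≤ C j * (N : ℝ) ^ (2 + 3 * δ) := by
        intro j _
        rw [← Finset.sum_filter, Finset.sum_const, nsmul_eq_mul]
        have h1 := hC j N hN _ hTN le_rfl b hb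
          (W.filter fun t => (N : ℝ) ^ (1 / 2 + (j + 1) * δ) < ‖D N b t‖) (fun t ht => by
            rw [Finset.mem_filter] at ht
            obtain ⟨h2, h3⟩ := hW t ht.1
            exact ⟨h2, h3.trans (Real.rpow_le_rpow_of_exponent_le hN1 (le_max_left _ _)), ht.2⟩)
        calc _ ≤ C j * (N : ℝ) ^ (2 - 2 * (1 / 2 + (j + 1) * δ) + δ) *
              (N : ℝ) ^ (2 * (1 / 2 + (j + 2) * δ)) := mul_le_mul_of_nonneg_right h1 (by positivity)
          _ = C j * (N : ℝ) ^ (2 + 3 * δ) := by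
              rw [mul_assoc, ← Real.rpow_add hN0]
              congr 2; ring
      calc ∑ t ∈ W, ‖D N b t‖ ^ 2 ≤ ∑ t ∈ W, ((N : ℝ) ^ (1 + 2 * δ) + ∑ j ∈ range J,
          (if (N : ℝ) ^ (1 / 2 + (j + 1) * δ) < ‖D N b t‖ then
            (N : ℝ) ^ (2 * (1 / 2 + (j + 2) * δ)) else 0)) := Finset.sum_le_sum hpt
        _ = W.card * (N : ℝ) ^ (1 + 2 * δ) + ∑ j ∈ range J, ∑ t ∈ W,
          (if (N : ℝ) ^ (1 / 2 + (j + 1) * δ) < ‖D N b t‖ then
            (N : ℝ) ^ (2 * (1 / 2 + (j + 2) * δ)) else 0) := by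
            rw [Finset.sum_add_distrib, Finset.sum_const, nsmul_eq_mul, Finset.sum_comm]
        _ ≤ (N : ℝ) ^ (2 + 2 * δ) + ∑ j ∈ range J, C j * (N : ℝ) ^ (2 + 3 * δ) := by
            apply add_le_add _ (Finset.sum_le_sum hcount)
            calc (W.card : ℝ) * (N : ℝ) ^ (1 + 2 * δ) ≤ N * (N : ℝ) ^ (1 + 2 * δ) :=
                  mul_le_mul_of_nonneg_right hWR (by positivity)
              _ = (N : ℝ) ^ (2 + 2 * δ) := by
                  nth_rewrite 1 [← Real.rpow_one (N : ℝ)]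
                  rw [← Real.rpow_add hN0]
                  congr 1; ring
        _ ≤ B * (N : ℝ) ^ (2 + ε) := by
            rw [← Finset.sum_mul]
            have h1 : (N : ℝ) ^ (2 + 2 * δ) ≤ (N : ℝ) ^ (2 + ε) :=
              Real.rpow_le_rpow_of_exponent_le hN1 (by rw [hδ]; linarith)
            have h2 : (N : ℝ) ^ (2 + 3 * δ) ≤ (N : ℝ) ^ (2 + ε) :=
              Real.rpow_le_rpow_of_exponent_le hN1 (by rw [hδ]; linarith)
            have h3 : 0 ≤ (N : ℝ) ^ (2 + ε) := by positivity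
            have h4 := mul_le_mul_of_nonneg_left h2 hS0
            rw [hB]
            nlinarith
  -- complex coefficients
  have hB0 : 0 ≤ B := by rw [hB]; linarith
  refine ⟨4 * B, fun N hN W hWN hW b hb => ?_⟩
  rw [qd_D]
  have hre : ∀ n, |(b n).re| ≤ 1 := fun n => (Complex.abs_re_le_norm _).trans (hb n)
  have him : ∀ n, |(b n).im| ≤ 1 := fun n => (Complex.abs_im_le_norm _).trans (hb n)
  obtain ⟨x, hx1, hx2⟩ := round W (Icc N (2 * N)) nt _ hre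
  obtain ⟨y, hy1, hy2⟩ := round W (Icc N (2 * N)) nt _ him
  have h1 := hsign N hN W hWN hW (fun n => (x n : ℂ)) (fun n => by
    rcases hx1 n with h | h <;> rw [h] <;> simp)
  have h2 := hsign N hN W hWN hW (fun n => (y n : ℂ)) (fun n => by
    rcases hy1 n with h | h <;> rw [h] <;> simp)
  rw [qd_D] at h1 h2
  have h3 := qd_add_le W (Icc N (2 * N)) nt (fun n => ((b n).re : ℂ))
    (fun n => Complex.I * ((b n).im : ℂ)) one_pos
  have e1 : ((fun n => ((b n).re : ℂ)) + fun n => Complex.I * ((b n).im : ℂ)) = b := by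
    funext n
    rw [Pi.add_apply, mul_comm]
    exact Complex.re_add_im (b n)
  have e2 : qd W (Icc N (2 * N)) nt (fun n => Complex.I * ((b n).im : ℂ)) =
      qd W (Icc N (2 * N)) nt (fun n => ((b n).im : ℂ)) := by
    unfold qd
    refine Finset.sum_congr rfl fun t _ => ?_
    have : ∑ n ∈ Icc N (2 * N), Complex.I * ((b n).im : ℂ) * nt t n =
        Complex.I * ∑ n ∈ Icc N (2 * N), ((b n).im : ℂ) * nt t n := by
      rw [Finset.mul_sum]
      exact Finset.sum_congr rfl fun n _ => by ring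
    rw [this, norm_mul, Complex.norm_I, one_mul]
  rw [e1, e2] at h3
  norm_num at h3
  linarith

lemma five_four {ε C : ℝ} {N : ℕ} (hN : 1 ≤ N) {W : Finset ℤ} (h : Weighted ε C N W) :
    Families ε C N W := by
  obtain ⟨w, hw0, hw1, hw2⟩ := h
  intro m b hb
  have hN0 : (0 : ℝ) < N := by exact_mod_cast hN
  calc ∑ j, ∑ t ∈ W, ‖D N (b j) t‖ ^ 2 ≤ ∑ j, N * ∑ n ∈ Icc N (2 * N), w n * ‖b j n‖ ^ 2 :=
        Finset.sum_le_sum fun j _ => hw2 (b j)
    _ = N * ∑ n ∈ Icc N (2 * N), w n * ∑ j, ‖b j n‖ ^ 2 := by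
        rw [← Finset.mul_sum, Finset.sum_comm]
        congr 1
        exact Finset.sum_congr rfl fun n _ => by rw [Finset.mul_sum]
    _ ≤ N * ∑ n ∈ Icc N (2 * N), w n := by
        apply mul_le_mul_of_nonneg_left _ hN0.le
        refine Finset.sum_le_sum fun n _ => ?_
        have := mul_le_mul_of_nonneg_left (hb n) (hw0 n).le
        linarith
    _ ≤ N * (C * (N : ℝ) ^ (1 + ε)) := mul_le_mul_of_nonneg_left hw1 hN0.le
    _ = C * (N : ℝ) ^ (2 + ε) := by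
        have : (2 : ℝ) + ε = 1 + (1 + ε) := by ring
        rw [this, Real.rpow_add hN0 1 (1 + ε), Real.rpow_one]
        ring

lemma four_three {ε C : ℝ} {N : ℕ} {W : Finset ℤ} (h : Families ε C N W) : MeanSquare ε C N W := by
  intro b hb
  have := h 1 (fun _ => b) (fun n => by
    simp only [Finset.univ_unique, Finset.sum_const, Finset.card_singleton, one_smul]
    have h1 := hb n
    have h2 := norm_nonneg (b n)
    nlinarith)
  simpa using this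

lemma five_six {ε C : ℝ} {N : ℕ} {W : Finset ℤ} (h : Weighted ε C N W) : DualWeighted ε C N W := by
  obtain ⟨w, hw0, hw1, hw2⟩ := h
  refine ⟨w, hw0, hw1, fun c => ?_⟩
  obtain ⟨f, hf⟩ : ∃ f : ℕ → ℂ, f = fun n => ∑ t ∈ W, c t * nt t n := ⟨_, rfl⟩
  obtain ⟨X, hX⟩ : ∃ X : ℝ, X = ∑ n ∈ Icc N (2 * N), ‖f n‖ ^ 2 / w n := ⟨_, rfl⟩
  have hX0 : 0 ≤ X := by
    rw [hX]; exact Finset.sum_nonneg fun n _ => div_nonneg (by positivity) (hw0 n).le
  have goal : X ≤ N * ∑ t ∈ W, ‖c t‖ ^ 2 := by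
    obtain ⟨b, hb⟩ : ∃ b : ℕ → ℂ, b = fun n => (starRingEnd ℂ) (f n) / (w n : ℂ) := ⟨_, rfl⟩
    have e1 : ∑ t ∈ W, c t * D N b t = (X : ℂ) := by
      unfold D
      simp_rw [Finset.mul_sum]
      rw [Finset.sum_comm, hX]
      push_cast
      refine Finset.sum_congr rfl fun n _ => ?_
      have : ∑ t ∈ W, c t * (b n * nt t n) = b n * f n := by
        rw [hf]
        dsimp only
        rw [Finset.mul_sum]
        exact Finset.sum_congr rfl fun t _ => by ring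
      rw [this, hb]
      dsimp only
      rw [div_mul_eq_mul_div, mul_comm, Complex.mul_conj, Complex.normSq_eq_norm_sq]
      push_cast
      rfl
    have e2 : ∑ n ∈ Icc N (2 * N), w n * ‖b n‖ ^ 2 = X := by
      rw [hX]
      refine Finset.sum_congr rfl fun n _ => ?_
      have := hw0 n
      rw [hb]
      dsimp only
      rw [norm_div, Complex.norm_conj, Complex.norm_real, Real.norm_of_nonneg this.le]
      field_simp
    have h1 := hw2 b
    rw [e2] at h1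
    have h2 : X ≤ ∑ t ∈ W, ‖c t‖ * ‖D N b t‖ := by
      have : X = ‖∑ t ∈ W, c t * D N b t‖ := by
        rw [e1, Complex.norm_real, Real.norm_of_nonneg hX0]
      rw [this]
      refine (norm_sum_le _ _).trans (le_of_eq ?_)
      exact Finset.sum_congr rfl fun t _ => norm_mul _ _
    have h3 := Finset.sum_mul_sq_le_sq_mul_sq W (fun t => ‖c t‖) (fun t => ‖D N b t‖)
    have h4 : X ^ 2 ≤ (∑ t ∈ W, ‖c t‖ ^ 2) * (N * X) := by
      calc X ^ 2 ≤ (∑ t ∈ W, ‖c t‖ * ‖D N b t‖) ^ 2 := pow_le_pow_left₀ hX0 h2 2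
        _ ≤ _ := h3
        _ ≤ _ := mul_le_mul_of_nonneg_left h1 (Finset.sum_nonneg fun _ _ => by positivity)
    rcases eq_or_lt_of_le hX0 with h0 | h0
    · rw [← h0]
      exact mul_nonneg (Nat.cast_nonneg _) (Finset.sum_nonneg fun _ _ => by positivity)
    · have h5 : X * X ≤ (N * ∑ t ∈ W, ‖c t‖ ^ 2) * X := by nlinarith
      exact le_of_mul_le_mul_right h5 h0
  rw [hX, hf] at goal
  exact goal

lemma six_seven (h : ForAllSets DualWeighted) : ForAllSets MeanModulus := by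
  intro A ε hε
  obtain ⟨C, hC⟩ := h A (2 * ε) (by linarith)
  refine ⟨√(max C 0), fun N hN W hWN hW c hc => ?_⟩
  obtain ⟨w, hw0, hw1, hw2⟩ := hC N hN W hWN hW
  have hN0 : (0 : ℝ) < N := by exact_mod_cast hN
  have h1 := hw2 c
  have h2 : ∑ t ∈ W, ‖c t‖ ^ 2 ≤ W.card := by
    calc ∑ t ∈ W, ‖c t‖ ^ 2 ≤ ∑ _t ∈ W, (1 : ℝ) := Finset.sum_le_sum fun t _ => by
          have h3 := hc t
          have h4 := norm_nonneg (c t)
          nlinarith
      _ = _ := by simp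
  obtain ⟨f, hf⟩ : ∃ f : ℕ → ℝ, f = fun n => ‖∑ t ∈ W, c t * nt t n‖ := ⟨_, rfl⟩
  have hf0 : ∀ n, 0 ≤ f n := fun n => by rw [hf]; exact norm_nonneg _
  have h3 : ∑ n ∈ Icc N (2 * N), f n ^ 2 / w n ≤ N * W.card := by
    rw [hf]
    exact h1.trans (mul_le_mul_of_nonneg_left h2 hN0.le)
  have h4 := Finset.sum_mul_sq_le_sq_mul_sq (Icc N (2 * N)) (fun n => f n / √(w n)) (fun n => √(w n))
  have e1 : ∑ n ∈ Icc N (2 * N), f n / √(w n) * √(w n) = ∑ n ∈ Icc N (2 * N), f n :=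
    Finset.sum_congr rfl fun n _ => div_mul_cancel₀ _ (Real.sqrt_pos.2 (hw0 n)).ne'
  have e2 : ∑ n ∈ Icc N (2 * N), (f n / √(w n)) ^ 2 = ∑ n ∈ Icc N (2 * N), f n ^ 2 / w n :=
    Finset.sum_congr rfl fun n _ => by rw [div_pow, Real.sq_sqrt (hw0 n).le]
  have e3 : ∑ n ∈ Icc N (2 * N), √(w n) ^ 2 = ∑ n ∈ Icc N (2 * N), w n :=
    Finset.sum_congr rfl fun n _ => Real.sq_sqrt (hw0 n).le
  rw [e1, e2, e3] at h4
  have h5 : (∑ n ∈ Icc N (2 * N), f n) ^ 2 ≤ (√(max C 0) * (N : ℝ) ^ (1 + ε) * √(W.card : ℝ)) ^ 2 := by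
    refine h4.trans ?_
    have h6 : ∑ n ∈ Icc N (2 * N), w n ≤ max C 0 * (N : ℝ) ^ (1 + 2 * ε) :=
      hw1.trans (mul_le_mul_of_nonneg_right (le_max_left _ _) (by positivity))
    calc _ ≤ (N * W.card) * (max C 0 * (N : ℝ) ^ (1 + 2 * ε)) :=
          mul_le_mul h3 h6 (Finset.sum_nonneg fun n _ => (hw0 n).le) (by positivity)
      _ = max C 0 * (N * (N : ℝ) ^ (1 + 2 * ε)) * W.card := by ring
      _ = (√(max C 0)) ^ 2 * ((N : ℝ) ^ (1 + ε)) ^ 2 * (√(W.card : ℝ)) ^ 2 := by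
          rw [Real.sq_sqrt (le_max_right _ _), Real.sq_sqrt (Nat.cast_nonneg _)]
          congr 2
          nth_rewrite 1 [← Real.rpow_one (N : ℝ)]
          rw [← Real.rpow_add hN0, ← Real.rpow_natCast, ← Real.rpow_mul hN0.le]
          congr 1; push_cast; ring
      _ = _ := by ring
  have h7 := abs_le_of_sq_le_sq h5 (by positivity)
  have h8 := (le_abs_self _).trans h7
  rw [hf] at h8
  exact h8

lemma seven_one (h : ForAllSets MeanModulus) : LargeValues {b | ∀ n, ‖b n‖ ≤ 1} := by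
  intro A σ hσ ε hε
  obtain ⟨η, hη⟩ : ∃ η : ℝ, η = σ - 1 / 2 := ⟨_, rfl⟩
  have hη0 : 0 < η := by rw [hη]; linarith
  obtain ⟨ε1, hε1⟩ : ∃ ε1 : ℝ, ε1 = min (ε / 2) (η / 2) := ⟨_, rfl⟩
  have hε10 : 0 < ε1 := by rw [hε1]; exact lt_min (by positivity) (by positivity)
  have hε1a : 2 * ε1 ≤ ε := by rw [hε1]; linarith [min_le_left (ε / 2) (η / 2)]
  have hε1b : 2 * ε1 ≤ η := by rw [hε1]; linarith [min_le_right (ε / 2) (η / 2)]
  obtain ⟨C0, hC0⟩ := h A ε1 hε10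
  obtain ⟨C, hC⟩ : ∃ C : ℝ, C = max C0 1 := ⟨_, rfl⟩
  have hC1 : 1 ≤ C := by rw [hC]; exact le_max_right _ _
  have hC00 : C0 ≤ C := by rw [hC]; exact le_max_left _ _
  obtain ⟨N0, hN0⟩ : ∃ N0 : ℝ, N0 = (C ^ 2) ^ (1 / η) := ⟨_, rfl⟩
  have hN01 : 1 ≤ N0 := by rw [hN0]; exact Real.one_le_rpow (one_le_pow₀ hC1) (by positivity)
  refine ⟨max (C ^ 2) (2 * N0 ^ (|A| + |2 - 2 * σ + ε|)), fun N hN T hNT hTA b hb W hW => ?_⟩
  have hN1 : (1 : ℝ) ≤ N := by exact_mod_cast hN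
  have hNp : (0 : ℝ) < N := by linarith
  have hb' : ∀ n, ‖b n‖ ≤ 1 := hb
  -- subsets with at most `N` elements
  have hsub : ∀ W' ⊆ W, W'.card ≤ N → (W'.card : ℝ) ≤ C ^ 2 * (N : ℝ) ^ (2 - 2 * σ + 2 * ε1) := by
    intro W' hW' hcard
    obtain ⟨c, hc⟩ : ∃ c : ℤ → ℂ, c = fun t => (starRingEnd ℂ) (D N b t) / (‖D N b t‖ : ℂ) := ⟨_, rfl⟩
    have hc1 : ∀ t, ‖c t‖ ≤ 1 := by
      intro t
      rw [hc]
      dsimp only
      rw [norm_div, Complex.norm_conj, Complex.norm_real, norm_norm]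
      exact div_self_le_one _
    have h1 := hC0 N hN W' hcard (fun t ht => ⟨(hW t (hW' ht)).1, (hW t (hW' ht)).2.1.trans hTA⟩) c hc1
    have h2 : ∑ t ∈ W', ‖D N b t‖ ≤ ∑ n ∈ Icc N (2 * N), ‖∑ t ∈ W', c t * nt t n‖ := by
      have e1 : ((∑ t ∈ W', ‖D N b t‖ : ℝ) : ℂ) = ∑ t ∈ W', c t * D N b t := by
        push_cast
        refine Finset.sum_congr rfl fun t ht => ?_
        have hpos : 0 < ‖D N b t‖ := lt_trans (Real.rpow_pos_of_pos hNp _) (hW t (hW' ht)).2.2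
        have hne : (‖D N b t‖ : ℂ) ≠ 0 := by exact_mod_cast hpos.ne'
        rw [hc]
        dsimp only
        rw [div_mul_eq_mul_div, mul_comm, Complex.mul_conj, Complex.normSq_eq_norm_sq]
        push_cast
        field_simp
      have e2 : ∑ t ∈ W', c t * D N b t = ∑ n ∈ Icc N (2 * N), b n * ∑ t ∈ W', c t * nt t n := by
        unfold D
        simp_rw [Finset.mul_sum]
        rw [Finset.sum_comm]
        exact Finset.sum_congr rfl fun n _ => Finset.sum_congr rfl fun t _ => by ring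
      have h3 : (0 : ℝ) ≤ ∑ t ∈ W', ‖D N b t‖ := Finset.sum_nonneg fun _ _ => norm_nonneg _
      have h4 : ∑ t ∈ W', ‖D N b t‖ = ‖∑ n ∈ Icc N (2 * N), b n * ∑ t ∈ W', c t * nt t n‖ := by
        rw [← e2, ← e1, Complex.norm_real, Real.norm_of_nonneg h3]
      rw [h4]
      refine (norm_sum_le _ _).trans (Finset.sum_le_sum fun n _ => ?_)
      rw [norm_mul]
      exact mul_le_of_le_one_left (norm_nonneg _) (hb' n)
    have h3 : (W'.card : ℝ) * (N : ℝ) ^ σ ≤ ∑ t ∈ W', ‖D N b t‖ := by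
      calc (W'.card : ℝ) * (N : ℝ) ^ σ = ∑ _t ∈ W', (N : ℝ) ^ σ := by
            rw [Finset.sum_const, nsmul_eq_mul]
        _ ≤ _ := Finset.sum_le_sum fun t ht => (hW t (hW' ht)).2.2.le
    have h4 : (W'.card : ℝ) * (N : ℝ) ^ σ ≤ C * (N : ℝ) ^ (1 + ε1) * √(W'.card : ℝ) := by
      refine h3.trans (h2.trans (h1.trans ?_))
      gcongr
    rcases Nat.eq_zero_or_pos W'.card with h0 | h0
    · rw [h0]; push_cast; positivity
    · have hw : (0 : ℝ) < W'.card := by exact_mod_cast h0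
      have hs : 0 < √(W'.card : ℝ) := Real.sqrt_pos.2 hw
      have hss : √(W'.card : ℝ) * √(W'.card : ℝ) = W'.card := Real.mul_self_sqrt hw.le
      have h5 : √(W'.card : ℝ) * (N : ℝ) ^ σ ≤ C * (N : ℝ) ^ (1 + ε1) := by
        have h6 : (√(W'.card : ℝ) * (N : ℝ) ^ σ) * √(W'.card : ℝ) ≤
            (C * (N : ℝ) ^ (1 + ε1)) * √(W'.card : ℝ) := by
          calc (√(W'.card : ℝ) * (N : ℝ) ^ σ) * √(W'.card : ℝ) =
              (√(W'.card : ℝ) * √(W'.card : ℝ)) * (N : ℝ) ^ σ := by ring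
            _ = W'.card * (N : ℝ) ^ σ := by rw [hss]
            _ ≤ _ := h4
        exact le_of_mul_le_mul_right h6 hs
      have h6 : √(W'.card : ℝ) ≤ C * (N : ℝ) ^ (1 + ε1 - σ) := by
        have h7 : (N : ℝ) ^ (1 + ε1 - σ) = (N : ℝ) ^ (1 + ε1) / (N : ℝ) ^ σ := Real.rpow_sub hNp _ _
        rw [h7, ← mul_div_assoc, le_div_iff₀ (Real.rpow_pos_of_pos hNp _)]
        exact h5
      calc (W'.card : ℝ) = √(W'.card : ℝ) ^ 2 := (Real.sq_sqrt hw.le).symm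
        _ ≤ (C * (N : ℝ) ^ (1 + ε1 - σ)) ^ 2 := pow_le_pow_left₀ hs.le h6 2
        _ = C ^ 2 * (N : ℝ) ^ (2 - 2 * σ + 2 * ε1) := by
            rw [mul_pow, ← Real.rpow_natCast ((N : ℝ) ^ (1 + ε1 - σ)), ← Real.rpow_mul hNp.le]
            congr 2; push_cast; ring
  rcases Nat.lt_or_ge N W.card with hbig | hsmall
  · -- `N` is bounded
    obtain ⟨W', hW', hcard⟩ := Finset.exists_subset_card_eq hbig.le
    have h1 := hsub W' hW' hcard.le
    rw [hcard] at h1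
    have h2 : (N : ℝ) ^ η ≤ C ^ 2 := by
      have h3 : (N : ℝ) ^ (2 * σ - 1 - 2 * ε1) ≤ C ^ 2 := by
        have h4 : (N : ℝ) ^ (2 * σ - 1 - 2 * ε1) * (N : ℝ) ^ (2 - 2 * σ + 2 * ε1) = N := by
          rw [← Real.rpow_add hNp]
          have : 2 * σ - 1 - 2 * ε1 + (2 - 2 * σ + 2 * ε1) = 1 := by ring
          rw [this, Real.rpow_one]
        have h5 : (N : ℝ) ^ (2 * σ - 1 - 2 * ε1) * (N : ℝ) ^ (2 - 2 * σ + 2 * ε1) ≤
            C ^ 2 * (N : ℝ) ^ (2 - 2 * σ + 2 * ε1) := by rw [h4]; exact h1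
        exact le_of_mul_le_mul_right h5 (Real.rpow_pos_of_pos hNp _)
      refine (Real.rpow_le_rpow_of_exponent_le hN1 ?_).trans h3
      rw [hη] at hε1b ⊢
      linarith
    have h3 : (N : ℝ) ≤ N0 := by
      have h4 := Real.rpow_le_rpow (by positivity) h2 (by positivity : 0 ≤ 1 / η)
      rw [← Real.rpow_mul hNp.le, mul_one_div_cancel hη0.ne', Real.rpow_one] at h4
      rw [hN0]
      exact h4
    have h4 : (W.card : ℝ) ≤ 2 * N0 ^ |A| := by
      have h5 : W ⊆ Finset.Icc 0 ⌊T⌋ := by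
        intro t ht
        obtain ⟨h6, h7, _⟩ := hW t ht
        rw [Finset.mem_Icc]
        exact ⟨by exact_mod_cast h6, Int.le_floor.2 h7⟩
      have h6 := Finset.card_le_card h5
      rw [Int.card_Icc] at h6
      have h7 : ((⌊T⌋ + 1 - 0).toNat : ℝ) ≤ T + 1 := by
        have hT0 : 0 ≤ ⌊T⌋ := Int.floor_nonneg.2 (by linarith)
        have h8 : ((⌊T⌋ + 1 - 0).toNat : ℤ) = ⌊T⌋ + 1 := by
          rw [Int.toNat_of_nonneg (by omega)]; ring
        have h9 : (((⌊T⌋ + 1 - 0).toNat : ℤ) : ℝ) = (⌊T⌋ : ℝ) + 1 := by rw [h8]; push_cast; ring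
        have h10 : ((⌊T⌋ + 1 - 0).toNat : ℝ) = (⌊T⌋ : ℝ) + 1 := by exact_mod_cast h9
        rw [h10]
        linarith [Int.floor_le T]
      have h8 : (W.card : ℝ) ≤ T + 1 := le_trans (by exact_mod_cast h6) h7
      have h9 : T ≤ N0 ^ |A| := by
        calc T ≤ (N : ℝ) ^ A := hTA
          _ ≤ (N : ℝ) ^ |A| := Real.rpow_le_rpow_of_exponent_le hN1 (le_abs_self A)
          _ ≤ N0 ^ |A| := Real.rpow_le_rpow hNp.le h3 (abs_nonneg A)
      have h10 : (1 : ℝ) ≤ N0 ^ |A| := Real.one_le_rpow hN01 (abs_nonneg A)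
      linarith
    have h5 : 1 ≤ N0 ^ |2 - 2 * σ + ε| * (N : ℝ) ^ (2 - 2 * σ + ε) := by
      have h6 : (N : ℝ) ^ (-|2 - 2 * σ + ε|) ≤ (N : ℝ) ^ (2 - 2 * σ + ε) :=
        Real.rpow_le_rpow_of_exponent_le hN1 (neg_abs_le _)
      have h7 : (N : ℝ) ^ |2 - 2 * σ + ε| ≤ N0 ^ |2 - 2 * σ + ε| :=
        Real.rpow_le_rpow hNp.le h3 (abs_nonneg _)
      calc (1 : ℝ) = (N : ℝ) ^ |2 - 2 * σ + ε| * (N : ℝ) ^ (-|2 - 2 * σ + ε|) := by
            rw [← Real.rpow_add hNp, add_neg_cancel, Real.rpow_zero]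
        _ ≤ _ := mul_le_mul h7 h6 (by positivity) (by positivity)
    calc (W.card : ℝ) ≤ 2 * N0 ^ |A| := h4
      _ ≤ 2 * N0 ^ |A| * (N0 ^ |2 - 2 * σ + ε| * (N : ℝ) ^ (2 - 2 * σ + ε)) :=
          le_mul_of_one_le_right (by positivity) h5
      _ = 2 * N0 ^ (|A| + |2 - 2 * σ + ε|) * (N : ℝ) ^ (2 - 2 * σ + ε) := by
          rw [Real.rpow_add (by linarith : 0 < N0)]
          ring
      _ ≤ _ := mul_le_mul_of_nonneg_right (le_max_right _ _) (by positivity)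
  · calc (W.card : ℝ) ≤ C ^ 2 * (N : ℝ) ^ (2 - 2 * σ + 2 * ε1) := hsub W subset_rfl hsmall
      _ ≤ C ^ 2 * (N : ℝ) ^ (2 - 2 * σ + ε) := by
          apply mul_le_mul_of_nonneg_left _ (by positivity)
          exact Real.rpow_le_rpow_of_exponent_le hN1 (by linarith)
      _ ≤ _ := mul_le_mul_of_nonneg_right (le_max_left _ _) (by positivity)

/-- the number of levels -/
lemma clog_le {e : ℝ} (he : 0 < e) (N : ℕ) (hN : 1 ≤ N) :
    (Nat.clog 2 (N + 1 + 1) : ℝ) ≤ (1 + 3 ^ e / (e * Real.log 2)) * (N : ℝ) ^ e := by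
  have hN1 : (1 : ℝ) ≤ N := by exact_mod_cast hN
  have hl2 : 0 < Real.log 2 := Real.log_pos (by norm_num)
  obtain ⟨c, hc⟩ : ∃ c : ℕ, c = Nat.clog 2 (N + 1 + 1) := ⟨_, rfl⟩
  have hc1 : 2 ^ (c - 1) < N + 1 + 1 := by
    rw [hc]
    exact Nat.pow_pred_clog_lt_self (b := 2) (x := N + 1 + 1) (by norm_num) (by omega)
  have hc2 : ((2 : ℝ) ^ (c - 1)) ≤ 3 * N := by
    have : (2 : ℝ) ^ (c - 1) < N + 1 + 1 := by exact_mod_cast hc1
    linarith
  have hc3 : ((c - 1 : ℕ) : ℝ) * Real.log 2 ≤ Real.log (3 * N) := by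
    rw [← Real.log_pow]
    exact Real.log_le_log (by positivity) hc2
  have hc4 := Real.log_le_rpow_div (by positivity : (0 : ℝ) ≤ 3 * N) he
  rw [Real.mul_rpow (by norm_num) (by positivity)] at hc4
  have hc5 : (c : ℝ) ≤ ((c - 1 : ℕ) : ℝ) + 1 := by
    have : c ≤ (c - 1) + 1 := by omega
    exact_mod_cast this
  have hc6 : ((c - 1 : ℕ) : ℝ) ≤ 3 ^ e / (e * Real.log 2) * (N : ℝ) ^ e := by
    have h1 : ((c - 1 : ℕ) : ℝ) * Real.log 2 ≤ 3 ^ e * (N : ℝ) ^ e / e := hc3.trans hc4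
    rw [← le_div_iff₀ hl2] at h1
    refine h1.trans (le_of_eq ?_)
    field_simp
  have hc7 : 1 ≤ (N : ℝ) ^ e := Real.one_le_rpow hN1 he.le
  rw [← hc]
  linarith

lemma three_five (h : ForAllSets MeanSquare) : ForAllSets Weighted := by
  intro A ε hε
  obtain ⟨e, he⟩ : ∃ e : ℝ, e = ε / 4 := ⟨_, rfl⟩
  have he0 : 0 < e := by rw [he]; positivity
  obtain ⟨C0, hC0⟩ := h A e he0
  obtain ⟨C, hC⟩ : ∃ C : ℝ, C = max C0 1 := ⟨_, rfl⟩
  have hC1 : 1 ≤ C := by rw [hC]; exact le_max_right _ _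
  have hC00 : C0 ≤ C := by rw [hC]; exact le_max_left _ _
  obtain ⟨k, hk⟩ : ∃ k : ℕ, 1 / e ≤ k := exists_nat_ge _
  have hk0 : (0 : ℝ) < k := lt_of_lt_of_le (by positivity) hk
  have hk1 : 1 ≤ k := by exact_mod_cast hk0
  have hk2 : (1 : ℝ) / k ≤ e := by
    rw [div_le_iff₀ he0] at hk
    rw [div_le_iff₀ hk0]
    linarith
  have hk3 : (1 : ℝ) / k ≤ 1 := by
    rw [div_le_one hk0]; exact_mod_cast hk1
  obtain ⟨B, hB⟩ : ∃ B : ℝ, B = 1 + 3 ^ e / (e * Real.log 2) := ⟨_, rfl⟩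
  have hl2 : 0 < Real.log 2 := Real.log_pos (by norm_num)
  have hB0 : 0 ≤ B := by rw [hB]; positivity
  have hCm := Cm_nonneg k
  refine ⟨6 * C * (1 + Cm k) * B ^ 2, fun N hN W hWN hW => ?_⟩
  have hN1 : (1 : ℝ) ≤ N := by exact_mod_cast hN
  have hNp : (0 : ℝ) < N := by linarith
  have hK : 0 < C * (N : ℝ) ^ (2 + e) := by positivity
  obtain ⟨w, hw0, hw1, hw2⟩ := weights W (Icc N (2 * N)) nt (C * (N : ℝ) ^ (2 + e)) hK
    (fun b hb => by
      rw [← qd_D]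
      exact (hC0 N hN W hWN hW b hb).trans (mul_le_mul_of_nonneg_right hC00 (by positivity)))
    k hk1 (N + 1) (N + 1) (Icc N (2 * N)) (card_Icc' N).le (card_Icc' N).le
  rw [card_Icc'] at hw1 hw2
  obtain ⟨H, hH⟩ : ∃ H : ℝ, H = (Nat.clog 2 (N + 1 + 1) : ℝ) := ⟨_, rfl⟩
  have hHB : H ≤ B * (N : ℝ) ^ e := by rw [hH, hB]; exact clog_le he0 N hN
  have hH0 : 0 < H := by
    rw [hH]
    have := Nat.clog_pos (b := 2) (by norm_num) (n := N + 1 + 1) (by omega)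
    exact_mod_cast this
  rw [← hH] at hw1 hw2
  have hLo : Lo (C * (N : ℝ) ^ (2 + e)) k (N + 1) ≤ 6 * C * (1 + Cm k) * (N : ℝ) ^ (2 + 2 * e) := by
    unfold Lo
    have h1 : (((N + 1 : ℕ) : ℝ)) ^ ((1 : ℝ) / k) ≤ 2 * (N : ℝ) ^ e := by
      calc (((N + 1 : ℕ) : ℝ)) ^ ((1 : ℝ) / k) ≤ (2 * (N : ℝ)) ^ ((1 : ℝ) / k) :=
            Real.rpow_le_rpow (by positivity) (by push_cast; linarith) (by positivity)
        _ = 2 ^ ((1 : ℝ) / k) * (N : ℝ) ^ ((1 : ℝ) / k) := Real.mul_rpow (by norm_num) (by positivity)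
        _ ≤ 2 * (N : ℝ) ^ e := by
            apply mul_le_mul _ (Real.rpow_le_rpow_of_exponent_le hN1 hk2) (by positivity) (by norm_num)
            calc (2 : ℝ) ^ ((1 : ℝ) / k) ≤ 2 ^ (1 : ℝ) :=
                  Real.rpow_le_rpow_of_exponent_le (by norm_num) hk3
              _ = 2 := Real.rpow_one _
    calc 3 * (C * (N : ℝ) ^ (2 + e)) * ((1 + Cm k) * (((N + 1 : ℕ) : ℝ)) ^ ((1 : ℝ) / k)) ≤
        3 * (C * (N : ℝ) ^ (2 + e)) * ((1 + Cm k) * (2 * (N : ℝ) ^ e)) := by gcongr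
      _ = 6 * C * (1 + Cm k) * ((N : ℝ) ^ (2 + e) * (N : ℝ) ^ e) := by ring
      _ = _ := by
          rw [← Real.rpow_add hNp]
          congr 2; ring
  refine ⟨fun n => H / N * w n, fun n => mul_pos (by positivity) (hw0 n), ?_, fun b => ?_⟩
  · rw [← Finset.mul_sum]
    calc H / N * ∑ n ∈ Icc N (2 * N), w n ≤
        H / N * (6 * C * (1 + Cm k) * (N : ℝ) ^ (2 + 2 * e) * H) := by
          apply mul_le_mul_of_nonneg_left _ (by positivity)
          exact hw1.trans (mul_le_mul_of_nonneg_right hLo hH0.le)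
      _ = 6 * C * (1 + Cm k) * H ^ 2 * ((N : ℝ) ^ (2 + 2 * e) / N) := by ring
      _ ≤ 6 * C * (1 + Cm k) * (B * (N : ℝ) ^ e) ^ 2 * ((N : ℝ) ^ (2 + 2 * e) / N) := by gcongr
      _ = 6 * C * (1 + Cm k) * B ^ 2 * (((N : ℝ) ^ e * (N : ℝ) ^ e) * ((N : ℝ) ^ (2 + 2 * e) / N)) := by
          ring
      _ = 6 * C * (1 + Cm k) * B ^ 2 * (N : ℝ) ^ (1 + ε) := by
          congr 1
          have h1 : (N : ℝ) ^ (2 + 2 * e) / N = (N : ℝ) ^ (2 + 2 * e - 1) := by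
            rw [Real.rpow_sub hNp, Real.rpow_one]
          rw [h1, ← Real.rpow_add hNp, ← Real.rpow_add hNp]
          congr 1
          rw [he]; ring
  · classical
    obtain ⟨b', hb'⟩ : ∃ b' : ℕ → ℂ, b' = fun n => if n ∈ Icc N (2 * N) then b n else 0 := ⟨_, rfl⟩
    have h1 := hw2 b' (fun n hn => by rw [hb']; simp only [hn, if_false])
    have h2 : qd W (Icc N (2 * N)) nt b' = qd W (Icc N (2 * N)) nt b :=
      qd_congr W _ nt fun n hn => by rw [hb']; simp only [hn, if_true]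
    have h3 : ∑ n ∈ Icc N (2 * N), w n * ‖b' n‖ ^ 2 = ∑ n ∈ Icc N (2 * N), w n * ‖b n‖ ^ 2 :=
      Finset.sum_congr rfl fun n hn => by rw [hb']; simp only [hn, if_true]
    rw [h2, h3] at h1
    rw [qd_D]
    refine h1.trans (le_of_eq ?_)
    rw [Finset.mul_sum, Finset.mul_sum]
    refine Finset.sum_congr rfl fun n _ => ?_
    field_simp

/-- the equivalence -/
theorem tfae : [LargeValues {b | ∀ n, ‖b n‖ ≤ 1}, LargeValues {b | ∀ n, b n = 1 ∨ b n = -1},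
    ForAllSets MeanSquare, ForAllSets Families, ForAllSets Weighted, ForAllSets DualWeighted,
    ForAllSets MeanModulus].TFAE := by
  have h54 : ForAllSets Weighted → ForAllSets Families := fun h A ε hε => by
    obtain ⟨C, hC⟩ := h A ε hε
    exact ⟨C, fun N hN W h1 h2 => five_four hN (hC N hN W h1 h2)⟩
  have h43 : ForAllSets Families → ForAllSets MeanSquare := fun h A ε hε => by
    obtain ⟨C, hC⟩ := h A ε hε
    exact ⟨C, fun N hN W h1 h2 => four_three (hC N hN W h1 h2)⟩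
  have h56 : ForAllSets Weighted → ForAllSets DualWeighted := fun h A ε hε => by
    obtain ⟨C, hC⟩ := h A ε hε
    exact ⟨C, fun N hN W h1 h2 => five_six (hC N hN W h1 h2)⟩
  have h12 : LargeValues {b | ∀ n, ‖b n‖ ≤ 1} → LargeValues {b | ∀ n, b n = 1 ∨ b n = -1} :=
    fun h A σ hσ ε hε => by
      obtain ⟨C, hC⟩ := h A σ hσ ε hε
      exact ⟨C, fun N hN T h1 h2 b hb W hW => hC N hN T h1 h2 b (fun n => by
        rcases hb n with h | h <;> rw [h] <;> simp) W hW⟩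
  tfae_have 1 → 2 := h12
  tfae_have 2 → 3 := two_three
  tfae_have 3 → 5 := three_five
  tfae_have 5 → 4 := h54
  tfae_have 4 → 3 := h43
  tfae_have 5 → 6 := h56
  tfae_have 6 → 7 := six_seven
  tfae_have 7 → 1 := seven_one
  tfae_finish

end Pool.Agent.E8helper70.Mlv
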