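import Pool.Agent.E8helper70.Mlv.Sgn

/-! # Weights from a bound for bounded coefficients -/

set_option autoImplicit false

open Finset

namespace Pool.Agent.E8helper70.Mlv

variable {τ : Type*}

/-- `∑_t |∑_n b_n a_{t,n}|²` -/
noncomputable def qd (W : Finset τ) (S : Finset ℕ) (a : τ → ℕ → ℂ) (b : ℕ → ℂ) : ℝ :=
  ∑ t ∈ W, ‖∑ n ∈ S, b n * a t n‖ ^ 2

lemma qd_nonneg (W : Finset τ) (S : Finset ℕ) (a : τ → ℕ → ℂ) (b : ℕ → ℂ) : 0 ≤ qd W S a b :=
  Finset.sum_nonneg fun _ _ => by positivity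

lemma qd_zero (W : Finset τ) (S : Finset ℕ) (a : τ → ℕ → ℂ) : qd W S a 0 = 0 := by
  simp [qd]

lemma qd_congr (W : Finset τ) (S : Finset ℕ) (a : τ → ℕ → ℂ) {b b' : ℕ → ℂ}
    (h : ∀ n ∈ S, b n = b' n) : qd W S a b = qd W S a b' := by
  unfold qd
  refine Finset.sum_congr rfl fun t _ => ?_
  rw [Finset.sum_congr rfl fun n hn => by rw [h n hn]]

lemma qd_par (W : Finset τ) (S : Finset ℕ) (a : τ → ℕ → ℂ) (x y : ℕ → ℂ) :
    qd W S a (x + y) + qd W S a (x - y) = 2 * qd W S a x + 2 * qd W S a y := by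
  unfold qd
  rw [← Finset.sum_add_distrib, Finset.mul_sum, Finset.mul_sum, ← Finset.sum_add_distrib]
  refine Finset.sum_congr rfl fun t _ => ?_
  have h1 : ∑ n ∈ S, (x + y) n * a t n = ∑ n ∈ S, x n * a t n + ∑ n ∈ S, y n * a t n := by
    rw [← Finset.sum_add_distrib]
    exact Finset.sum_congr rfl fun n _ => by rw [Pi.add_apply, add_mul]
  have h2 : ∑ n ∈ S, (x - y) n * a t n = ∑ n ∈ S, x n * a t n - ∑ n ∈ S, y n * a t n := by
    rw [← Finset.sum_sub_distrib]
    exact Finset.sum_congr rfl fun n _ => by rw [Pi.sub_apply, sub_mul]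
  rw [h1, h2]
  have := parallelogram_law_with_norm ℝ (∑ n ∈ S, x n * a t n) (∑ n ∈ S, y n * a t n)
  nlinarith

lemma qd_smul (W : Finset τ) (S : Finset ℕ) (a : τ → ℕ → ℂ) (s : ℝ) (b : ℕ → ℂ) :
    qd W S a (fun n => (s : ℂ) * b n) = s ^ 2 * qd W S a b := by
  unfold qd
  rw [Finset.mul_sum]
  refine Finset.sum_congr rfl fun t _ => ?_
  have : ∑ n ∈ S, (s : ℂ) * b n * a t n = (s : ℂ) * ∑ n ∈ S, b n * a t n := by
    rw [Finset.mul_sum]
    exact Finset.sum_congr rfl fun n _ => by ring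
  rw [this, norm_mul, mul_pow, Complex.norm_real, Real.norm_eq_abs, sq_abs]

/-- the weighted triangle inequality -/
lemma qd_add_le (W : Finset τ) (S : Finset ℕ) (a : τ → ℕ → ℂ) (x y : ℕ → ℂ) {h : ℝ} (hh : 0 < h) :
    qd W S a (x + y) ≤ (h + 1) * qd W S a x + (h + 1) / h * qd W S a y := by
  unfold qd
  rw [Finset.mul_sum, Finset.mul_sum, ← Finset.sum_add_distrib]
  refine Finset.sum_le_sum fun t _ => ?_
  have h1 : ∑ n ∈ S, (x + y) n * a t n = ∑ n ∈ S, x n * a t n + ∑ n ∈ S, y n * a t n := by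
    rw [← Finset.sum_add_distrib]
    exact Finset.sum_congr rfl fun n _ => by rw [Pi.add_apply, add_mul]
  rw [h1]
  set u := ‖∑ n ∈ S, x n * a t n‖
  set v := ‖∑ n ∈ S, y n * a t n‖
  have h2 : ‖∑ n ∈ S, x n * a t n + ∑ n ∈ S, y n * a t n‖ ≤ u + v := norm_add_le _ _
  have h3 : ‖∑ n ∈ S, x n * a t n + ∑ n ∈ S, y n * a t n‖ ^ 2 ≤ (u + v) ^ 2 :=
    pow_le_pow_left₀ (norm_nonneg _) h2 2
  have h4 : (h + 1) * u ^ 2 + (h + 1) / h * v ^ 2 - (u + v) ^ 2 = (h * u - v) ^ 2 / h := by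
    field_simp
    ring
  have h5 : 0 ≤ (h * u - v) ^ 2 / h := by positivity
  linarith

/-- the total weight of a list at `n` -/
noncomputable def wt (l : List (ℕ → ℂ)) (n : ℕ) : ℝ := (l.map fun b => ‖b n‖ ^ 2).sum

lemma wt_cons (b : ℕ → ℂ) (l : List (ℕ → ℂ)) (n : ℕ) : wt (b :: l) n = ‖b n‖ ^ 2 + wt l n := by
  simp [wt]

/-- greedy saturation -/
theorem greedy (Q : (ℕ → ℂ) → ℝ) (hQs : ∀ (s : ℝ) (b : ℕ → ℂ), Q (fun n => (s : ℂ) * b n) = s ^ 2 * Q b)
    (hQ0 : Q 0 = 0) (S : Finset ℕ) (κ : ℝ)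
    (hbad : ∀ U ⊆ S, S.card ≤ 2 * U.card → ∃ b : ℕ → ℂ, (∀ n, n ∉ U → b n = 0) ∧
      κ * ∑ n ∈ U, ‖b n‖ ^ 2 < Q b) :
    ∀ m : ℕ, 2 * m ≤ S.card + 1 → ∃ l : List (ℕ → ℂ), (∀ b ∈ l, ∀ n, n ∉ S → b n = 0) ∧
      (∀ n ∈ S, wt l n ≤ 1) ∧ m ≤ (S.filter fun n => wt l n = 1).card ∧
      κ * ∑ n ∈ S, wt l n ≤ (l.map Q).sum := by
  intro m
  induction m with
  | zero =>
    intro _
    exact ⟨[], by simp, by simp [wt], by simp, by simp [wt]⟩
  | succ m ih =>
    intro hm
    obtain ⟨l, h1, h2, h3, h4⟩ := ih (by omega)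
    by_cases hsat : m + 1 ≤ (S.filter fun n => wt l n = 1).card
    · exact ⟨l, h1, h2, hsat, h4⟩
    set F := S.filter fun n => wt l n = 1 with hF
    have hFm : F.card = m := by omega
    have hFS : F ⊆ S := Finset.filter_subset _ _
    set U := S \ F with hU
    have hUc : U.card = S.card - m := by rw [hU, Finset.card_sdiff_of_subset hFS, hFm]
    have hUS : U ⊆ S := Finset.sdiff_subset
    obtain ⟨b, hb0, hbQ⟩ := hbad U hUS (by omega)
    -- the indices with `b n ≠ 0`
    set V := U.filter fun n => b n ≠ 0 with hV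
    have hVne : V.Nonempty := by
      by_contra hne
      rw [Finset.not_nonempty_iff_eq_empty] at hne
      have hb : b = 0 := by
        funext n
        by_cases hn : n ∈ U
        · by_contra h
          have : n ∈ V := Finset.mem_filter.2 ⟨hn, h⟩
          rw [hne] at this
          simp at this
        · exact hb0 n hn
      rw [hb, hQ0] at hbQ
      simp at hbQ
    obtain ⟨j, hjV, hj⟩ := Finset.exists_min_image V (fun n => (1 - wt l n) / ‖b n‖ ^ 2) hVne
    set r := (1 - wt l j) / ‖b j‖ ^ 2 with hr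
    have hjU : j ∈ U := (Finset.mem_filter.1 hjV).1
    have hbj : b j ≠ 0 := (Finset.mem_filter.1 hjV).2
    have hjS : j ∈ S := hUS hjU
    have hjF : j ∉ F := (Finset.mem_sdiff.1 hjU).2
    have hr0 : 0 ≤ r := by
      apply div_nonneg _ (by positivity)
      linarith [h2 j hjS]
    obtain ⟨s, hs⟩ : ∃ s : ℝ, s = √r := ⟨_, rfl⟩
    have hs2 : s ^ 2 = r := by rw [hs, Real.sq_sqrt hr0]
    have hn2 : ∀ n, ‖(s : ℂ) * b n‖ ^ 2 = r * ‖b n‖ ^ 2 := by
      intro n
      rw [norm_mul, mul_pow, Complex.norm_real, Real.norm_eq_abs, sq_abs, hs2]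
    have hwt : ∀ n, wt ((fun n => (s : ℂ) * b n) :: l) n = r * ‖b n‖ ^ 2 + wt l n := by
      intro n
      rw [wt_cons, hn2]
    refine ⟨(fun n => (s : ℂ) * b n) :: l, ?_, ?_, ?_, ?_⟩
    · intro b' hb' n hn
      rw [List.mem_cons] at hb'
      rcases hb' with rfl | hb'
      · have : b n = 0 := hb0 n fun h => hn (hUS h)
        simp [this]
      · exact h1 b' hb' n hn
    · intro n hn
      rw [hwt]
      by_cases hnz : b n = 0
      · rw [hnz]
        simpa using h2 n hn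
      · have hnU : n ∈ U := by
          by_contra h
          exact hnz (hb0 n h)
        have hnV : n ∈ V := Finset.mem_filter.2 ⟨hnU, hnz⟩
        have h5 := hj n hnV
        have h6 : 0 < ‖b n‖ ^ 2 := by positivity
        rw [le_div_iff₀ h6] at h5
        linarith
    · have h5 : insert j F ⊆ S.filter fun n => wt ((fun n => (s : ℂ) * b n) :: l) n = 1 := by
        intro n hn
        rw [Finset.mem_insert] at hn
        rw [Finset.mem_filter]
        rcases hn with rfl | hn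
        · refine ⟨hjS, ?_⟩
          rw [hwt, hr]
          have : 0 < ‖b n‖ ^ 2 := by positivity
          field_simp
          ring
        · refine ⟨hFS hn, ?_⟩
          have hnU : n ∉ U := fun h => (Finset.mem_sdiff.1 h).2 hn
          rw [hwt, hb0 n hnU]
          simpa using (Finset.mem_filter.1 hn).2
      have h6 := Finset.card_le_card h5
      rw [Finset.card_insert_of_notMem hjF, hFm] at h6
      exact h6
    · rw [List.map_cons, List.sum_cons, hQs, hs2]
      have h5 : ∑ n ∈ S, wt ((fun n => (s : ℂ) * b n) :: l) n =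
          r * ∑ n ∈ U, ‖b n‖ ^ 2 + ∑ n ∈ S, wt l n := by
        rw [Finset.sum_congr rfl fun n _ => hwt n, Finset.sum_add_distrib, ← Finset.mul_sum]
        congr 2
        refine (Finset.sum_subset hUS fun n _ hn => ?_).symm
        rw [hb0 n hn]
        simp
      rw [h5]
      nlinarith [mul_le_mul_of_nonneg_left hbQ.le hr0]

/-- the loss -/
noncomputable def Lo (K : ℝ) (k : ℕ) (s : ℕ) : ℝ := 3 * K * ((1 + Cm k) * (s : ℝ) ^ ((1 : ℝ) / k))

/-- half of the indices are good -/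
theorem half (W : Finset τ) (S₀ : Finset ℕ) (a : τ → ℕ → ℂ) (K : ℝ) (hK : 0 < K)
    (hb : ∀ b : ℕ → ℂ, (∀ n, ‖b n‖ ≤ 1) → qd W S₀ a b ≤ K) (k : ℕ) (hk : 1 ≤ k) (S : Finset ℕ)
    (hS : S.Nonempty) :
    ∃ S' ⊆ S, S.card ≤ 2 * S'.card ∧ ∀ b : ℕ → ℂ, (∀ n, n ∉ S' → b n = 0) →
      qd W S₀ a b ≤ Lo K k S.card / S.card * ∑ n ∈ S', ‖b n‖ ^ 2 := by
  by_contra hcon
  push Not at hcon
  have hc : 0 < (S.card : ℝ) := by exact_mod_cast hS.card_pos
  have hk0 : (0 : ℝ) < k := by exact_mod_cast hk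
  obtain ⟨θ, hθ⟩ : ∃ θ : ℝ, θ = (S.card : ℝ) ^ ((1 : ℝ) / k) := ⟨_, rfl⟩
  have hθ0 : 0 < θ := by rw [hθ]; positivity
  have hθk : θ ^ k = S.card := by
    rw [hθ, ← Real.rpow_natCast, ← Real.rpow_mul hc.le, one_div, inv_mul_cancel₀ hk0.ne',
      Real.rpow_one]
  have hCm := Cm_nonneg k
  have hL : 0 < Lo K k S.card := by unfold Lo; rw [← hθ]; positivity
  obtain ⟨l, h1, h2, h3, h4⟩ := greedy (qd W S₀ a) (qd_smul W S₀ a) (qd_zero W S₀ a) S
    (Lo K k S.card / S.card) (fun U hU hUc => hcon U hU hUc) ((S.card + 1) / 2)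
    (by omega)
  -- lower bound
  have h5 : (S.card : ℝ) / 2 ≤ ∑ n ∈ S, wt l n := by
    have h6 : (((S.card + 1) / 2 : ℕ) : ℝ) ≤ ((S.filter fun n => wt l n = 1).card : ℝ) := by
      exact_mod_cast h3
    have h7 : (S.card : ℝ) / 2 ≤ (((S.card + 1) / 2 : ℕ) : ℝ) := by
      have : S.card ≤ 2 * ((S.card + 1) / 2) := by omega
      have h8 : (S.card : ℝ) ≤ 2 * (((S.card + 1) / 2 : ℕ) : ℝ) := by exact_mod_cast this
      linarith
    have h8 : ((S.filter fun n => wt l n = 1).card : ℝ) ≤ ∑ n ∈ S, wt l n := by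
      calc ((S.filter fun n => wt l n = 1).card : ℝ) =
          ∑ n ∈ S.filter fun n => wt l n = 1, wt l n := by
            rw [Finset.sum_congr rfl fun n hn => (Finset.mem_filter.1 hn).2]
            simp
        _ ≤ _ := Finset.sum_le_sum_of_subset_of_nonneg (Finset.filter_subset _ _)
            fun n _ _ => by
              unfold wt
              apply List.sum_nonneg
              intro x hx
              rw [List.mem_map] at hx
              obtain ⟨b, _, rfl⟩ := hx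
              positivity
    linarith
  have h6 : Lo K k S.card / 2 ≤ (l.map (qd W S₀ a)).sum := by
    refine le_trans ?_ h4
    calc Lo K k S.card / 2 = Lo K k S.card / S.card * (S.card / 2) := by field_simp
      _ ≤ _ := mul_le_mul_of_nonneg_left h5 (by positivity)
  -- upper bound
  rw [← av_quad l (qd W S₀ a) (qd_zero W S₀ a) (qd_par W S₀ a)] at h6
  have h7 : av l (qd W S₀ a) ≤ av l (fun x => K * θ + K * θ * (θ ^ k)⁻¹ *
      ∑ j ∈ S, ‖x j‖ ^ (2 * k)) := by
    refine av_mono l (fun x => ∀ n, n ∉ S → x n = 0) (fun n _ => rfl) (fun x y hx hy => ⟨fun n hn => ?_,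
      fun n hn => ?_⟩) h1 _ _ fun x hx => ?_
    · rw [Pi.add_apply, hx n hn, hy n hn, add_zero]
    · rw [Pi.sub_apply, hx n hn, hy n hn, sub_zero]
    · obtain ⟨j, hj, hjmax⟩ := Finset.exists_max_image S (fun n => ‖x n‖) hS
      have hM : ∀ n, ‖x n‖ ≤ ‖x j‖ := by
        intro n
        by_cases hn : n ∈ S
        · exact hjmax n hn
        · rw [hx n hn, norm_zero]; exact norm_nonneg _
      have hQM : qd W S₀ a x ≤ K * ‖x j‖ ^ 2 := by
        rcases eq_or_lt_of_le (norm_nonneg (x j)) with h0 | h0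
        · have : x = 0 := by
            funext n
            have := hM n
            rw [← h0] at this
            exact norm_le_zero_iff.1 this
          rw [this, qd_zero]
          positivity
        · have h8 := hb (fun n => ((‖x j‖⁻¹ : ℝ) : ℂ) * x n) (fun n => by
            rw [norm_mul, Complex.norm_real, Real.norm_of_nonneg (by positivity),
              inv_mul_le_iff₀ h0, mul_one]
            exact hM n)
          rw [qd_smul, inv_pow, inv_mul_le_iff₀ (by positivity)] at h8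
          linarith
      have hsum : ‖x j‖ ^ (2 * k) ≤ ∑ j ∈ S, ‖x j‖ ^ (2 * k) :=
        Finset.single_le_sum (f := fun j => ‖x j‖ ^ (2 * k)) (fun _ _ => by positivity) hj
      have hMθ : ‖x j‖ ^ 2 ≤ θ + θ * (θ ^ k)⁻¹ * ‖x j‖ ^ (2 * k) := by
        rcases le_total (‖x j‖ ^ 2) θ with h8 | h8
        · have : 0 ≤ θ * (θ ^ k)⁻¹ * ‖x j‖ ^ (2 * k) := by positivity
          linarith
        · obtain ⟨k', rfl⟩ : ∃ k', k = k' + 1 := ⟨k - 1, by omega⟩
          have h9 : θ ^ k' ≤ (‖x j‖ ^ 2) ^ k' := pow_le_pow_left₀ hθ0.le h8 k'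
          have h10 : θ * (θ ^ (k' + 1))⁻¹ * ‖x j‖ ^ (2 * (k' + 1)) =
              (‖x j‖ ^ 2) ^ k' / θ ^ k' * ‖x j‖ ^ 2 := by
            rw [pow_mul]
            field_simp
            ring
          rw [h10]
          have h11 : 1 ≤ (‖x j‖ ^ 2) ^ k' / θ ^ k' := by
            rw [one_le_div (by positivity)]; exact h9
          nlinarith [sq_nonneg ‖x j‖]
      calc qd W S₀ a x ≤ K * ‖x j‖ ^ 2 := hQM
        _ ≤ K * (θ + θ * (θ ^ k)⁻¹ * ‖x j‖ ^ (2 * k)) := mul_le_mul_of_nonneg_left hMθ hK.le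
        _ ≤ K * (θ + θ * (θ ^ k)⁻¹ * ∑ j ∈ S, ‖x j‖ ^ (2 * k)) := by gcongr
        _ = _ := by ring
  rw [av_add, av_const, av_mul, av_sum] at h7
  have h8 : ∑ j ∈ S, av l (fun x => ‖x j‖ ^ (2 * k)) ≤ S.card * Cm k := by
    calc _ ≤ ∑ _j ∈ S, Cm k := Finset.sum_le_sum fun j hj => av_mom l j k (h2 j hj)
      _ = _ := by rw [Finset.sum_const, nsmul_eq_mul]
  have h9 : av l (qd W S₀ a) ≤ K * θ * (1 + Cm k) := by
    refine h7.trans ?_
    calc K * θ + K * θ * (θ ^ k)⁻¹ * ∑ j ∈ S, av l (fun x => ‖x j‖ ^ (2 * k)) ≤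
        K * θ + K * θ * (θ ^ k)⁻¹ * (S.card * Cm k) := by gcongr
      _ = K * θ * (1 + Cm k) := by rw [hθk]; field_simp
  have h10 : Lo K k S.card = 3 * (K * θ * (1 + Cm k)) := by unfold Lo; rw [← hθ]; ring
  have h11 : 0 < K * θ * (1 + Cm k) := by positivity
  linarith

/-- **the weights** -/
theorem weights (W : Finset τ) (S₀ : Finset ℕ) (a : τ → ℕ → ℂ) (K : ℝ) (hK : 0 < K)
    (hb : ∀ b : ℕ → ℂ, (∀ n, ‖b n‖ ≤ 1) → qd W S₀ a b ≤ K) (k : ℕ) (hk : 1 ≤ k) (c : ℕ) :
    ∀ (m : ℕ) (S : Finset ℕ), S.card ≤ m → S.card ≤ c → ∃ w : ℕ → ℝ, (∀ n, 0 < w n) ∧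
      ∑ n ∈ S, w n ≤ Lo K k c * (Nat.clog 2 (S.card + 1) : ℝ) ∧
      ∀ b : ℕ → ℂ, (∀ n, n ∉ S → b n = 0) →
        qd W S₀ a b ≤ (Nat.clog 2 (S.card + 1) : ℝ) * ∑ n ∈ S, w n * ‖b n‖ ^ 2 := by
  intro m
  induction m with
  | zero =>
    intro S hS _
    have hS0 : S = ∅ := Finset.card_eq_zero.1 (by omega)
    subst hS0
    refine ⟨fun _ => 1, fun _ => one_pos, by simp, fun b hb' => ?_⟩
    have : b = 0 := by funext n; exact hb' n (by simp)
    rw [this, qd_zero]; simp
  | succ m ih =>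
    intro S hS hSc
    rcases Finset.eq_empty_or_nonempty S with rfl | hne
    · refine ⟨fun _ => 1, fun _ => one_pos, by simp, fun b hb' => ?_⟩
      have : b = 0 := by funext n; exact hb' n (by simp)
      rw [this, qd_zero]; simp
    obtain ⟨S', hS', hhalf, hgood⟩ := half W S₀ a K hK hb k hk S hne
    have hcp : 0 < S.card := hne.card_pos
    have hS'0 : 0 < S'.card := by omega
    have hcd : (S \ S').card = S.card - S'.card := Finset.card_sdiff_of_subset hS'
    obtain ⟨w', hw'0, hw'1, hw'2⟩ := ih (S \ S') (by omega) (by omega)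
    have hcR : 0 < (S.card : ℝ) := by exact_mod_cast hcp
    have hk0 : (0 : ℝ) < k := by exact_mod_cast hk
    have hCm := Cm_nonneg k
    have hLmono : Lo K k S.card ≤ Lo K k c := by
      unfold Lo
      have : (S.card : ℝ) ^ ((1 : ℝ) / k) ≤ (c : ℝ) ^ ((1 : ℝ) / k) :=
        Real.rpow_le_rpow hcR.le (by exact_mod_cast hSc) (by positivity)
      gcongr
    have hL0 : 0 < Lo K k S.card := by unfold Lo; positivity
    -- the levels
    obtain ⟨h', hh'⟩ : ∃ h' : ℕ, h' = Nat.clog 2 ((S \ S').card + 1) := ⟨_, rfl⟩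
    have hlev : h' + 1 ≤ Nat.clog 2 (S.card + 1) := by
      rw [Nat.clog_of_two_le (by norm_num) (by omega : 2 ≤ S.card + 1), hh']
      have : Nat.clog 2 ((S \ S').card + 1) ≤ Nat.clog 2 ((S.card + 1 + 2 - 1) / 2) :=
        Nat.clog_mono_right 2 (by omega)
      omega
    have hlevR : (h' : ℝ) + 1 ≤ (Nat.clog 2 (S.card + 1) : ℝ) := by exact_mod_cast hlev
    rw [← hh'] at hw'1 hw'2
    classical
    refine ⟨fun n => if n ∈ S' then Lo K k S.card / S.card else w' n, fun n => ?_, ?_, ?_⟩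
    · dsimp only
      split_ifs
      · positivity
      · exact hw'0 n
    · have e1 : ∑ n ∈ S, (if n ∈ S' then Lo K k S.card / S.card else w' n) =
          ∑ n ∈ S', Lo K k S.card / S.card + ∑ n ∈ S \ S', w' n := by
        rw [← Finset.sum_sdiff hS', add_comm]
        congr 1
        · exact Finset.sum_congr rfl fun n hn => if_pos hn
        · exact Finset.sum_congr rfl fun n hn => if_neg (Finset.mem_sdiff.1 hn).2
      rw [e1, Finset.sum_const, nsmul_eq_mul]
      have h1 : (S'.card : ℝ) * (Lo K k S.card / S.card) ≤ Lo K k c := by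
        have h2 : (S'.card : ℝ) ≤ S.card := by exact_mod_cast Finset.card_le_card hS'
        calc (S'.card : ℝ) * (Lo K k S.card / S.card) ≤ S.card * (Lo K k S.card / S.card) :=
              mul_le_mul_of_nonneg_right h2 (by positivity)
          _ = Lo K k S.card := by field_simp
          _ ≤ _ := hLmono
      have hLc : 0 ≤ Lo K k c := hL0.le.trans hLmono
      calc _ ≤ Lo K k c + Lo K k c * h' := add_le_add h1 hw'1
        _ = Lo K k c * (h' + 1) := by ring
        _ ≤ _ := mul_le_mul_of_nonneg_left hlevR hLc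
    · intro b hb'
      obtain ⟨x, hx⟩ : ∃ x : ℕ → ℂ, x = fun n => if n ∈ S' then b n else 0 := ⟨_, rfl⟩
      obtain ⟨y, hy⟩ : ∃ y : ℕ → ℂ, y = fun n => if n ∈ S' then 0 else b n := ⟨_, rfl⟩
      have hxy : b = x + y := by
        funext n
        rw [Pi.add_apply, hx, hy]
        by_cases h : n ∈ S' <;> simp [h]
      have hx0 : ∀ n, n ∉ S' → x n = 0 := fun n hn => by rw [hx]; simp [hn]
      have hy0 : ∀ n, n ∉ S \ S' → y n = 0 := fun n hn => by
        rw [hy]
        dsimp only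
        split_ifs with h
        · rfl
        · exact hb' n fun h2 => hn (Finset.mem_sdiff.2 ⟨h2, h⟩)
      have g1 := hgood x hx0
      have g2 := hw'2 y hy0
      have e1 : ∑ n ∈ S, (if n ∈ S' then Lo K k S.card / S.card else w' n) * ‖b n‖ ^ 2 =
          Lo K k S.card / S.card * ∑ n ∈ S', ‖x n‖ ^ 2 + ∑ n ∈ S \ S', w' n * ‖y n‖ ^ 2 := by
        rw [← Finset.sum_sdiff hS', add_comm, Finset.mul_sum]
        congr 1
        · refine Finset.sum_congr rfl fun n hn => ?_
          rw [if_pos hn, hx]; simp [hn]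
        · refine Finset.sum_congr rfl fun n hn => ?_
          have := (Finset.mem_sdiff.1 hn).2
          rw [if_neg this, hy]; simp [this]
      rw [e1]
      have hκ0 : 0 ≤ Lo K k S.card / S.card := div_nonneg hL0.le hcR.le
      have hX0 : 0 ≤ Lo K k S.card / S.card * ∑ n ∈ S', ‖x n‖ ^ 2 :=
        mul_nonneg hκ0 (Finset.sum_nonneg fun _ _ => sq_nonneg _)
      have hY0 : 0 ≤ ∑ n ∈ S \ S', w' n * ‖y n‖ ^ 2 :=
        Finset.sum_nonneg fun n _ => mul_nonneg (hw'0 n).le (by positivity)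
      rcases Nat.eq_zero_or_pos h' with h0 | h0
      · have hyz : qd W S₀ a y = 0 := by
          rw [h0] at g2
          have := qd_nonneg W S₀ a y
          simp at g2
          linarith
        have hS'' : S \ S' = ∅ := by
          rw [hh'] at h0
          by_contra hne2
          have h2 : 0 < (S \ S').card := Finset.card_pos.2 (Finset.nonempty_iff_ne_empty.2 hne2)
          have := Nat.clog_pos (b := 2) (by norm_num) (n := (S \ S').card + 1) (by omega)
          omega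
        have hy00 : y = 0 := by
          funext n
          exact hy0 n (by rw [hS'']; simp)
        rw [hxy, hy00, add_zero]
        have : (1 : ℝ) ≤ (Nat.clog 2 (S.card + 1) : ℝ) := by
          have : 1 ≤ Nat.clog 2 (S.card + 1) := by omega
          exact_mod_cast this
        have e0 : ∑ n ∈ S \ S', w' n * ‖(0 : ℕ → ℂ) n‖ ^ 2 = 0 :=
          Finset.sum_eq_zero fun n _ => by rw [Pi.zero_apply, norm_zero]; ring
        rw [e0, add_zero]
        exact g1.trans (le_mul_of_one_le_left hX0 this)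
      · have hh0 : (0 : ℝ) < h' := by exact_mod_cast h0
        rw [hxy]
        refine (qd_add_le W S₀ a x y hh0).trans ?_
        calc (h' + 1) * qd W S₀ a x + (h' + 1) / h' * qd W S₀ a y ≤
            (h' + 1) * (Lo K k S.card / S.card * ∑ n ∈ S', ‖x n‖ ^ 2) +
            (h' + 1) / h' * (h' * ∑ n ∈ S \ S', w' n * ‖y n‖ ^ 2) :=
              add_le_add (mul_le_mul_of_nonneg_left g1 (by linarith))
                (mul_le_mul_of_nonneg_left g2 (div_nonneg (by linarith) hh0.le))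
          _ = (h' + 1) * (Lo K k S.card / S.card * ∑ n ∈ S', ‖x n‖ ^ 2 +
              ∑ n ∈ S \ S', w' n * ‖y n‖ ^ 2) := by
              generalize Lo K k S.card / S.card * ∑ n ∈ S', ‖x n‖ ^ 2 = X
              generalize ∑ n ∈ S \ S', w' n * ‖y n‖ ^ 2 = Y
              field_simp
          _ ≤ _ := mul_le_mul_of_nonneg_right hlevR (add_nonneg hX0 hY0)

end Pool.Agent.E8helper70.Mlv
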