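import Mathlib

/-! # Averages over signs -/

set_option autoImplicit false

open Finset

namespace Pool.Agent.E8helper70.Mlv

/-- the average of `F (∑ ±b)` over all choices of the signs -/
noncomputable def av : List (ℕ → ℂ) → ((ℕ → ℂ) → ℝ) → ℝ
  | [], F => F 0
  | b :: l, F => (av l (fun x => F (x + b)) + av l (fun x => F (x - b))) / 2

lemma av_add (l : List (ℕ → ℂ)) : ∀ F G : (ℕ → ℂ) → ℝ,
    av l (fun x => F x + G x) = av l F + av l G := by
  induction l with
  | nil => intro F G; rfl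
  | cons b l ih =>
    intro F G
    simp only [av]
    rw [ih (fun x => F (x + b)) (fun x => G (x + b)), ih (fun x => F (x - b)) (fun x => G (x - b))]
    ring

lemma av_mul (l : List (ℕ → ℂ)) (c : ℝ) : ∀ F : (ℕ → ℂ) → ℝ,
    av l (fun x => c * F x) = c * av l F := by
  induction l with
  | nil => intro F; rfl
  | cons b l ih =>
    intro F
    simp only [av]
    rw [ih (fun x => F (x + b)), ih (fun x => F (x - b))]
    ring

lemma av_const (l : List (ℕ → ℂ)) (c : ℝ) : av l (fun _ => c) = c := by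
  induction l with
  | nil => rfl
  | cons b l ih => simp only [av, ih]; ring

lemma av_sum {ι : Type*} (l : List (ℕ → ℂ)) (s : Finset ι) (F : ι → (ℕ → ℂ) → ℝ) :
    av l (fun x => ∑ i ∈ s, F i x) = ∑ i ∈ s, av l (F i) := by
  classical
  induction s using Finset.induction_on with
  | empty => simp [av_const]
  | insert i s hi ih =>
    simp only [Finset.sum_insert hi]
    rw [av_add, ih]

lemma av_mono (l : List (ℕ → ℂ)) (P : (ℕ → ℂ) → Prop) (h0 : P 0)
    (hP : ∀ x y, P x → P y → P (x + y) ∧ P (x - y)) (hl : ∀ b ∈ l, P b) :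
    ∀ F G : (ℕ → ℂ) → ℝ, (∀ x, P x → F x ≤ G x) → av l F ≤ av l G := by
  induction l with
  | nil => intro F G h; exact h 0 h0
  | cons b l ih =>
    intro F G h
    have hb : P b := hl b (by simp)
    have hl' : ∀ b ∈ l, P b := fun b' h' => hl b' (by simp [h'])
    simp only [av]
    have h1 := ih hl' (fun x => F (x + b)) (fun x => G (x + b)) fun x hx => h _ (hP x b hx hb).1
    have h2 := ih hl' (fun x => F (x - b)) (fun x => G (x - b)) fun x hx => h _ (hP x b hx hb).2
    linarith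

lemma av_quad (l : List (ℕ → ℂ)) (Q : (ℕ → ℂ) → ℝ) (h0 : Q 0 = 0)
    (hQ : ∀ x y, Q (x + y) + Q (x - y) = 2 * Q x + 2 * Q y) : av l Q = (l.map Q).sum := by
  induction l with
  | nil => simpa [av] using h0
  | cons b l ih =>
    simp only [av, List.map_cons, List.sum_cons]
    rw [← av_add]
    have : (fun x => Q (x + b) + Q (x - b)) = fun x => 2 * Q x + 2 * Q b := by
      funext x; exact hQ x b
    rw [this, av_add l (fun x => 2 * Q x) (fun _ => 2 * Q b), av_const, av_mul, ih]
    ring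

lemma av_cosh (l : List (ℕ → ℂ)) (φ : (ℕ → ℂ) → ℝ) (h0 : φ 0 = 0)
    (ha : ∀ x y, φ (x + y) = φ x + φ y) (hs : ∀ x y, φ (x - y) = φ x - φ y) :
    av l (fun x => Real.cosh (φ x)) ≤ Real.exp ((l.map fun b => φ b ^ 2).sum / 2) := by
  induction l with
  | nil => simp [av, h0]
  | cons b l ih =>
    simp only [av, List.map_cons, List.sum_cons]
    rw [← av_add]
    have : (fun x => Real.cosh (φ (x + b)) + Real.cosh (φ (x - b))) =
        fun x => (2 * Real.cosh (φ b)) * Real.cosh (φ x) := by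
      funext x
      rw [ha, hs, Real.cosh_add, Real.cosh_sub]
      ring
    rw [this, av_mul]
    have h1 := Real.cosh_le_exp_half_sq (φ b)
    have h2 : 0 ≤ av l (fun x => Real.cosh (φ x)) := by
      have := av_mono l (fun _ => True) trivial (fun _ _ _ _ => ⟨trivial, trivial⟩)
        (fun _ _ => trivial) (fun _ => 0) (fun x => Real.cosh (φ x))
        (fun x _ => (Real.cosh_pos _).le)
      rwa [av_const] at this
    have h3 : Real.exp ((φ b ^ 2 + (l.map fun b => φ b ^ 2).sum) / 2) =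
        Real.exp (φ b ^ 2 / 2) * Real.exp ((l.map fun b => φ b ^ 2).sum / 2) := by
      rw [← Real.exp_add]; congr 1; ring
    rw [h3]
    calc 2 * Real.cosh (φ b) * av l (fun x => Real.cosh (φ x)) / 2 =
        Real.cosh (φ b) * av l (fun x => Real.cosh (φ x)) := by ring
      _ ≤ _ := mul_le_mul h1 ih h2 (Real.exp_pos _).le

/-- the constant of the moment inequality -/
noncomputable def Cm (k : ℕ) : ℝ := 2 ^ (k + 1) * (2 * k).factorial * Real.exp (1 / 2) * 2

lemma Cm_nonneg (k : ℕ) : 0 ≤ Cm k := by unfold Cm; positivity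

lemma pow_le_cosh (y : ℝ) (k : ℕ) : y ^ (2 * k) ≤ 2 * (2 * k).factorial * Real.cosh y := by
  have h1 : y ^ (2 * k) = |y| ^ (2 * k) := by rw [pow_mul, pow_mul, sq_abs]
  have h2 := Real.pow_div_factorial_le_exp |y| (abs_nonneg y) (2 * k)
  rw [div_le_iff₀ (by positivity)] at h2
  have h3 : Real.exp |y| ≤ 2 * Real.cosh y := by
    rw [Real.cosh_eq]
    rcases abs_cases y with ⟨h, _⟩ | ⟨h, _⟩ <;> rw [h] <;>
      linarith [Real.exp_pos y, Real.exp_pos (-y)]
  rw [h1]
  calc |y| ^ (2 * k) ≤ Real.exp |y| * (2 * k).factorial := h2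
    _ ≤ 2 * Real.cosh y * (2 * k).factorial := mul_le_mul_of_nonneg_right h3 (by positivity)
    _ = _ := by ring

lemma av_mom (l : List (ℕ → ℂ)) (j k : ℕ) (h : (l.map fun b => ‖b j‖ ^ 2).sum ≤ 1) :
    av l (fun x => ‖x j‖ ^ (2 * k)) ≤ Cm k := by
  have hre : (l.map fun b => (b j).re ^ 2).sum ≤ 1 := by
    refine le_trans (List.sum_le_sum fun b _ => ?_) h
    rw [Complex.sq_norm, Complex.normSq_apply]
    nlinarith [sq_nonneg (b j).im]
  have him : (l.map fun b => (b j).im ^ 2).sum ≤ 1 := by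
    refine le_trans (List.sum_le_sum fun b _ => ?_) h
    rw [Complex.sq_norm, Complex.normSq_apply]
    nlinarith [sq_nonneg (b j).re]
  have h1 := av_cosh l (fun x => (x j).re) (by simp) (by simp) (by simp)
  have h2 := av_cosh l (fun x => (x j).im) (by simp) (by simp) (by simp)
  have h3 : Real.exp ((l.map fun b => (b j).re ^ 2).sum / 2) ≤ Real.exp (1 / 2) :=
    Real.exp_le_exp.2 (by linarith)
  have h4 : Real.exp ((l.map fun b => (b j).im ^ 2).sum / 2) ≤ Real.exp (1 / 2) :=
    Real.exp_le_exp.2 (by linarith)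
  have h5 : av l (fun x => ‖x j‖ ^ (2 * k)) ≤
      av l (fun x => 2 ^ (k + 1) * (2 * k).factorial * Real.cosh ((x j).re) +
        2 ^ (k + 1) * (2 * k).factorial * Real.cosh ((x j).im)) := by
    refine av_mono l (fun _ => True) trivial (fun _ _ _ _ => ⟨trivial, trivial⟩)
      (fun _ _ => trivial) _ _ (fun x _ => ?_)
    have e : ‖x j‖ ^ (2 * k) = ((x j).re ^ 2 + (x j).im ^ 2) ^ k := by
      rw [pow_mul, Complex.sq_norm, Complex.normSq_apply]
      ring
    rw [e]
    have h6 := add_pow_le (sq_nonneg (x j).re) (sq_nonneg (x j).im) k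
    have h7 := pow_le_cosh (x j).re k
    have h8 := pow_le_cosh (x j).im k
    rw [pow_mul] at h7 h8
    have h9 : (2 : ℝ) ^ (k - 1) ≤ 2 ^ k := pow_le_pow_right₀ (by norm_num) (Nat.sub_le _ _)
    have h10 : 0 ≤ ((x j).re ^ 2) ^ k + ((x j).im ^ 2) ^ k := by positivity
    calc ((x j).re ^ 2 + (x j).im ^ 2) ^ k ≤ 2 ^ (k - 1) * (((x j).re ^ 2) ^ k + ((x j).im ^ 2) ^ k) := h6
      _ ≤ 2 ^ k * (((x j).re ^ 2) ^ k + ((x j).im ^ 2) ^ k) := mul_le_mul_of_nonneg_right h9 h10
      _ ≤ 2 ^ k * (2 * (2 * k).factorial * Real.cosh ((x j).re) +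
          2 * (2 * k).factorial * Real.cosh ((x j).im)) :=
        mul_le_mul_of_nonneg_left (add_le_add h7 h8) (by positivity)
      _ = _ := by ring
  rw [av_add, av_mul, av_mul] at h5
  refine h5.trans ?_
  have h6 : (0 : ℝ) ≤ 2 ^ (k + 1) * (2 * k).factorial := by positivity
  calc _ ≤ 2 ^ (k + 1) * (2 * k).factorial * Real.exp (1 / 2) +
        2 ^ (k + 1) * (2 * k).factorial * Real.exp (1 / 2) :=
        add_le_add (mul_le_mul_of_nonneg_left (h1.trans h3) h6)
          (mul_le_mul_of_nonneg_left (h2.trans h4) h6)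
    _ = Cm k := by unfold Cm; ring

end Pool.Agent.E8helper70.Mlv
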